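import Mathlib

/-!
# The Jacobson radical of a noncommutative ring and units
-/

set_option autoImplicit false

universe u

namespace Pool.Agent.R934

variable {R : Type u} [Ring R]

lemma exists_left_inv_of_mem_jacobson {j : R} (hj : j ∈ Ring.jacobson R) (y : R) :
    ∃ s, s * (1 + y * j) = 1 := by
  rw [← Ideal.jacobson_bot, Ideal.mem_jacobson_iff] at hj
  obtain ⟨z, hz⟩ := hj y
  refine ⟨z, ?_⟩
  rw [Ideal.mem_bot, sub_eq_zero] at hz
  rw [mul_add, mul_one, add_comm, ← mul_assoc]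
  exact hz

lemma isUnit_one_add_of_mem_jacobson {j : R} (hj : j ∈ Ring.jacobson R) : IsUnit (1 + j) := by
  obtain ⟨s, hs⟩ := exists_left_inv_of_mem_jacobson hj 1
  rw [one_mul] at hs
  have h1 : s = 1 + (-s) * j := by
    have : s + s * j = 1 := by rw [← hs]; noncomm_ring
    rw [← this]; noncomm_ring
  obtain ⟨t, ht⟩ := exists_left_inv_of_mem_jacobson hj (-s)
  rw [← h1] at ht
  have h2 : t = 1 + j := by
    calc t = t * (s * (1 + j)) := by rw [hs, mul_one]
      _ = 1 + j := by rw [← mul_assoc, ht, one_mul]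
  rw [h2] at ht
  exact ⟨⟨1 + j, s, ht, hs⟩, rfl⟩

lemma mem_jacobson_of_forall {x : R} (h : ∀ y : R, ∃ s, s * (1 + y * x) = 1) :
    x ∈ Ring.jacobson R := by
  rw [← Ideal.jacobson_bot, Ideal.mem_jacobson_iff]
  intro y
  obtain ⟨s, hs⟩ := h y
  refine ⟨s, ?_⟩
  rw [Ideal.mem_bot, sub_eq_zero, ← hs]
  noncomm_ring

lemma jacobson_mul_mem_right {j : R} (hj : j ∈ Ring.jacobson R) (y : R) :
    j * y ∈ Ring.jacobson R := Ideal.mul_mem_right _ _ hj

end Pool.Agent.R934
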