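import Pool.Agent.Y163.TateC

/-!
# The formula of Tate up to a polynomial factor
-/

set_option autoImplicit false

open CategoryTheory AlgebraicGeometry CategoryTheory.Limits

universe u v

namespace Pool.Agent.R934

open Pool.Agent.H914 Pool.Agent.H447 Pool.Agent.W534 Pool.Agent.Y163 VarClass Obj WeilCohomology
  Module

variable {k : Type u} [Field k] {𝒱 : VarClass k} {ops : CycleOps 𝒱}
  {W : WeilCohomology.{u, v} ops} {S U X Z : 𝒱.Obj} {p : ℕ}

lemma mul_span_mem {a b : ℕ} {x y : W.H Z} (hx : x ∈ spanCycles W Z a)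
    (hy : y ∈ spanCycles W Z b) : x * y ∈ spanCycles W Z ((a + b : ℕ) : ℤ) := by
  induction hx using Submodule.span_induction with
  | mem x hx =>
    obtain ⟨q, hq, z, hz, rfl⟩ := hx
    obtain rfl : q = a := by exact_mod_cast hq
    induction hy using Submodule.span_induction with
    | mem y hy =>
      obtain ⟨r, hr, w, hw, rfl⟩ := hy
      obtain rfl : r = b := by exact_mod_cast hr
      rw [← W.cl_mul]
      exact Submodule.subset_span ⟨q + r, rfl, _, ops.mul_mem hz hw, rfl⟩
    | zero => rw [mul_zero]; exact Submodule.zero_mem _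
    | add x y _ _ hx hy => rw [mul_add]; exact Submodule.add_mem _ hx hy
    | smul c x _ hx => rw [mul_smul_comm]; exact Submodule.smul_mem _ _ hx
  | zero => rw [zero_mul]; exact Submodule.zero_mem _
  | add x y _ _ hx hy => rw [add_mul]; exact Submodule.add_mem _ hx hy
  | smul c x _ hx => rw [smul_mul_assoc]; exact Submodule.smul_mem _ _ hx

lemma pow_span_mem {E : U.Cycles} (hE : U.IsCyc 1 E) (j : ℕ) :
    W.cl U E ^ j ∈ spanCycles W U (j : ℤ) := by
  rw [← cl_divPow_fund]
  exact Submodule.subset_span ⟨j, rfl, _, divPow_fund_mem hE j, rfl⟩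

/-- The external product with a power of the class of a divisor. -/
noncomputable def extPow (W : WeilCohomology.{u, v} ops) (S : 𝒱.Obj) {U : 𝒱.Obj} {E : U.Cycles}
    (hE : U.IsCyc 1 E) (a j : ℕ) :
    spanCycles W S (a : ℤ) →ₗ[W.K] spanCycles W (S.prod U) ((a + j : ℕ) : ℤ) where
  toFun x := ⟨W.map (fst S U) x * W.map (snd S U) (W.cl U E ^ j),
    mul_span_mem (map_span _ x.2) (map_span _ (pow_span_mem hE j))⟩
  map_add' := by
    intro x y
    ext
    simp [add_mul]
  map_smul' := by
    intro c x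
    ext
    simp

lemma extPow_coe {E : U.Cycles} (hE : U.IsCyc 1 E) (a j : ℕ) (x : spanCycles W S (a : ℤ)) :
    (extPow W S hE a j x : W.H (S.prod U)) =
      W.map (fst S U) x * W.map (snd S U) (W.cl U E ^ j) := rfl

lemma kRank_prod_ge {E : U.Cycles} (hE : U.IsCyc 1 E) (hE2 : W.tr U (W.cl U E ^ U.dim) ≠ 0)
    (a b : ℕ) {j l : ℕ} (hjl : j + l = U.dim) :
    kRank W S a b ≤ kRank W (S.prod U) (a + j) (b + l) := by
  set c := W.tr U (W.cl U E ^ U.dim) with hc
  have key : ∀ (x : spanCycles W S (a : ℤ)) (y : spanCycles W S (b : ℤ)),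
      pair W (S.prod U) (a + j) (b + l) (extPow W S hE a j x) (extPow W S hE b l y) =
        c * pair W S a b x y := by
    intro x y
    rw [pair_apply, pair_apply, extPow_coe, extPow_coe]
    have h1 : W.map (snd S U) (W.cl U E ^ j) * W.map (fst S U) (y : W.H S) =
        W.map (fst S U) (y : W.H S) * W.map (snd S U) (W.cl U E ^ j) :=
      W.even_comm (W.map_mem _ (pow_mem_gr hE j)) _
    have h2 : W.map (fst S U) (x : W.H S) * W.map (snd S U) (W.cl U E ^ j) *
        (W.map (fst S U) (y : W.H S) * W.map (snd S U) (W.cl U E ^ l)) =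
        W.map (fst S U) ((x : W.H S) * y) * W.map (snd S U) (W.cl U E ^ U.dim) := by
      rw [← hjl, pow_add, map_mul, map_mul (W.map (snd S U))]
      rw [mul_assoc, ← mul_assoc (W.map (snd S U) (W.cl U E ^ j)), h1]
      simp only [mul_assoc]
    rw [h2, W.tr_prod, mul_comm]
  have hle : LinearMap.range (pair W S a b) ≤
      (LinearMap.range (pair W (S.prod U) (a + j) (b + l))).map
        (c⁻¹ • (extPow W S hE b l).dualMap) := by
    rintro _ ⟨x, rfl⟩
    refine ⟨pair W (S.prod U) (a + j) (b + l) (extPow W S hE a j x), ⟨_, rfl⟩, ?_⟩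
    ext y
    rw [LinearMap.smul_apply, LinearMap.smul_apply, LinearMap.dualMap_apply, key, smul_eq_mul,
      inv_mul_cancel_left₀ hE2]
  exact (Submodule.finrank_mono hle).trans (Submodule.finrank_map_le _ _)

lemma finrank_prod_obj (S U : 𝒱.Obj) :
    finrank W.K (W.H (S.prod U)) = finrank W.K (W.H S) * finrank W.K (W.H U) := by
  have e := kappa W S U
  rw [← e.finrank_eq, Module.finrank_tensorProduct]

/-- The formula of Tate up to a polynomial factor. -/
theorem poly_law [IsAlgClosed W.K] (hp : 1 < p) (Φ : FrobSystem W p) (σ : W.K →+* ℂ)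
    (hRH : ∀ Z, RiemannHyp Φ σ Z) {D : X.Cycles} (hD : X.IsCyc 1 D) (hbig : Big ops X D)
    {E : U.Cycles} (hE : U.IsCyc 1 E) (hbigE : Big ops U E) :
    ∃ z : ℕ → ℕ → ℕ, ∀ n j, j ≤ U.dim →
      PoleOrderIs Φ σ ((sq X n).prod U) ((n + 1) * X.dim + j) (z n j) ∧
      0 < numRank ops ((sq X n).prod U) ((n + 1) * X.dim + j) ∧
      numRank ops ((sq X n).prod U) ((n + 1) * X.dim + j) ≤ z n j ∧
      z n j ≤ finrank W.K (W.H X) ^ (2 * (n + 1)) * finrank W.K (W.H U) ∧
      finrank W.K (W.H X) ^ (2 * (n + 1)) ≤ (n + 2) ^ (finrank W.K (W.H X) ^ 2) *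
        numRank ops ((sq X n).prod U) ((n + 1) * X.dim + j) := by
  have hX : par (W.isInternal X) ∈ KOp W X X 0 := par_mem_of_RH Φ hp σ (hRH X)
  have htr : W.tr X (W.cl X D ^ X.dim) ≠ 0 := hbig.tr hD
  have htrE : W.tr U (W.cl U E ^ U.dim) ≠ 0 := hbigE.tr hE
  have hH : 0 < finrank W.K (W.H X) := by
    have : Nontrivial (W.H X) := by
      by_contra hcon
      rw [not_nontrivial_iff_subsingleton] at hcon
      apply htr
      rw [Subsingleton.elim (W.cl X D ^ X.dim) 0, map_zero]
    exact finrank_pos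
  refine ⟨fun n j => finrank W.K (genU Φ ((sq X n).prod U) ((n + 1) * X.dim + j)),
    fun n j hj => ?_⟩
  have hdim : ((sq X n).prod U).dim = 2 * ((n + 1) * X.dim) + U.dim := by
    rw [dim_prod, dim_sq]
  have hjd : (n + 1) * X.dim + j ≤ ((sq X n).prod U).dim := by
    rw [hdim]; omega
  obtain ⟨l, hl⟩ := Nat.exists_eq_add_of_le hj
  have hnum : numRank ops ((sq X n).prod U) ((n + 1) * X.dim + j) =
      kRank W ((sq X n).prod U) ((n + 1) * X.dim + j) ((n + 1) * X.dim + l) := by
    rw [numRank_eq (W := W) hjd]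
    congr 1
    rw [hdim]; omega
  have hge : mrank W X n ≤ numRank ops ((sq X n).prod U) ((n + 1) * X.dim + j) := by
    rw [hnum]
    exact kRank_prod_ge hE htrE _ _ hl.symm
  have hgrow : finrank W.K (W.H X) ^ (2 * (n + 1)) ≤ (n + 2) ^ (finrank W.K (W.H X) ^ 2) *
      numRank ops ((sq X n).prod U) ((n + 1) * X.dim + j) := by
    have h1 := mrank_growth hX n
    rw [← pow_mul, mul_comm (mrank W X n)] at h1
    exact h1.trans (Nat.mul_le_mul_left _ hge)
  refine ⟨poleOrderIs hp (hRH _) hjd, ?_, ?_, ?_, hgrow⟩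
  · apply Nat.pos_of_ne_zero
    intro h0
    rw [h0, mul_zero] at hgrow
    have : 0 < finrank W.K (W.H X) ^ (2 * (n + 1)) := by positivity
    omega
  · rw [hnum]
    exact (kRank_le _ _).trans (Submodule.finrank_mono (span_le_genU Φ _ _))
  · refine (Submodule.finrank_le _).trans (le_of_eq ?_)
    rw [finrank_prod_obj, Pool.Agent.Y163.sq, finrank_prod_obj, finrank_pw, ← pow_add]
    congr 2
    ring

lemma finrank_pos_of_big {E : U.Cycles} (hE : U.IsCyc 1 E) (h : Big ops U E) :
    0 < finrank W.K (W.H U) := by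
  have htr : W.tr U (W.cl U E ^ U.dim) ≠ 0 := h.tr hE
  have : Nontrivial (W.H U) := by
    by_contra hcon
    rw [not_nontrivial_iff_subsingleton] at hcon
    apply htr
    rw [Subsingleton.elim (W.cl U E ^ U.dim) 0, map_zero]
  exact finrank_pos

lemma two_le_finrank {D : X.Cycles} (hD : X.IsCyc 1 D) (h : Big ops X D) (hX : 0 < X.dim) :
    2 ≤ finrank W.K (W.H X) := by
  have htr : W.tr X (W.cl X D ^ X.dim) ≠ 0 := h.tr hD
  by_contra hcon
  have h1 : finrank W.K (W.H X) = 1 := by
    have := finrank_pos_of_big (W := W) hD h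
    omega
  have h10 : (1 : W.H X) ≠ 0 := by
    intro h0
    apply htr
    rw [← mul_one (W.cl X D ^ X.dim), h0, mul_zero, map_zero]
  obtain ⟨c, hc⟩ := exists_smul_eq_of_finrank_eq_one h1 h10 (W.cl X D ^ X.dim)
  apply htr
  rw [← hc, map_smul, W.tr_eq_zero (W.one_mem X) (by omega), smul_zero]

end Pool.Agent.R934
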