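import Mathlib

/-!
# Sequences between an exponential function and its quotient by a polynomial
-/

set_option autoImplicit false

open Filter Topology

namespace Pool.Agent.R934

lemma log_lim {b c : ℕ} (hb : 2 ≤ b) (hc : 0 < c) {r z : ℕ → ℕ} (e : ℕ)
    (hr : ∀ n, 0 < r n) (hrz : ∀ n, r n ≤ z n) (hz : ∀ n, z n ≤ b ^ (2 * (n + 1)) * c)
    (h : ∀ n, b ^ (2 * (n + 1)) ≤ (n + 2) ^ e * r n) :
    Tendsto (fun n => Real.log (r n) / (n + 1)) atTop (𝓝 (2 * Real.log b)) ∧
      Tendsto (fun n => Real.log (z n) / (n + 1)) atTop (𝓝 (2 * Real.log b)) := by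
  have hb0 : (0 : ℝ) < b := by positivity
  have hlow : ∀ n : ℕ, 2 * Real.log b - e * (Real.log (n + 2) / (n + 1)) ≤
      Real.log (r n) / (n + 1) := by
    intro n
    have h1 : ((b : ℝ)) ^ (2 * (n + 1)) ≤ ((n : ℝ) + 2) ^ e * r n := by exact_mod_cast h n
    have hr0 : (0 : ℝ) < r n := by exact_mod_cast hr n
    have h2 := Real.log_le_log (by positivity) h1
    rw [Real.log_mul (by positivity) hr0.ne', Real.log_pow, Real.log_pow] at h2
    have hn : (0 : ℝ) < n + 1 := by positivity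
    rw [le_div_iff₀ hn, sub_mul]
    have h3 : (e : ℝ) * (Real.log (n + 2) / (n + 1)) * (n + 1) = e * Real.log (n + 2) := by
      field_simp
    rw [h3]
    push_cast at h2
    linarith
  have hup : ∀ n : ℕ, Real.log (z n) / (n + 1) ≤ 2 * Real.log b + Real.log c * (1 / (n + 1)) := by
    intro n
    have hz0 : (0 : ℝ) < z n := by exact_mod_cast (hr n).trans_le (hrz n)
    have hc0 : (0 : ℝ) < c := by exact_mod_cast hc
    have h1 : (z n : ℝ) ≤ (b : ℝ) ^ (2 * (n + 1)) * c := by exact_mod_cast hz n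
    have h2 := Real.log_le_log hz0 h1
    rw [Real.log_mul (by positivity) hc0.ne', Real.log_pow] at h2
    have hn : (0 : ℝ) < n + 1 := by positivity
    rw [div_le_iff₀ hn]
    have h3 : (2 * Real.log b + Real.log c * (1 / (n + 1))) * (n + 1) =
        2 * (n + 1) * Real.log b + Real.log c := by field_simp
    rw [h3]
    push_cast at h2
    linarith
  have hrz' : ∀ n, Real.log (r n) / (n + 1) ≤ Real.log (z n) / (n + 1) := by
    intro n
    have hr0 : (0 : ℝ) < r n := by exact_mod_cast hr n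
    have hn : (0 : ℝ) < n + 1 := by positivity
    exact div_le_div_of_nonneg_right (Real.log_le_log hr0 (by exact_mod_cast hrz n)) hn.le
  have l1 : Tendsto (fun n : ℕ => (1 : ℝ) / (n + 1)) atTop (𝓝 0) :=
    tendsto_one_div_add_atTop_nhds_zero_nat
  have l2 : Tendsto (fun n : ℕ => Real.log (n + 2) / ((n : ℝ) + 1)) atTop (𝓝 0) := by
    have h1 : Tendsto (fun x : ℝ => Real.log x / x) atTop (𝓝 0) := by
      have := Real.isLittleO_log_id_atTop.tendsto_div_nhds_zero
      simpa using this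
    have h2 : Tendsto (fun n : ℕ => (n : ℝ) + 2) atTop atTop :=
      tendsto_atTop_add_const_right _ _ tendsto_natCast_atTop_atTop
    have h3 := h1.comp h2
    have h4 : Tendsto (fun n : ℕ => Real.log (n + 2) / ((n : ℝ) + 2) * (1 + 1 / (n + 1)))
        atTop (𝓝 (0 * (1 + 0))) := h3.mul (tendsto_const_nhds.add l1)
    rw [zero_mul] at h4
    refine h4.congr fun n => ?_
    have : (n : ℝ) + 1 ≠ 0 := by positivity
    have : (n : ℝ) + 2 ≠ 0 := by positivity
    field_simp
    ring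
  have l3 : Tendsto (fun n : ℕ => 2 * Real.log b - e * (Real.log (n + 2) / ((n : ℝ) + 1))) atTop
      (𝓝 (2 * Real.log b)) := by
    have := (tendsto_const_nhds (x := 2 * Real.log b)).sub (l2.const_mul (e : ℝ))
    simpa using this
  have l4 : Tendsto (fun n : ℕ => 2 * Real.log b + Real.log c * (1 / ((n : ℝ) + 1))) atTop
      (𝓝 (2 * Real.log b)) := by
    have := (tendsto_const_nhds (x := 2 * Real.log b)).add (l1.const_mul (Real.log c))
    simpa using this
  exact ⟨tendsto_of_tendsto_of_tendsto_of_le_of_le l3 l4 hlow fun n => (hrz' n).trans (hup n),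
    tendsto_of_tendsto_of_tendsto_of_le_of_le l3 l4 (fun n => (hlow n).trans (hrz' n)) hup⟩

lemma growth_lim {b c : ℕ} (hb : 2 ≤ b) (hc : 0 < c) {r z : ℕ → ℕ} (e : ℕ)
    (hr : ∀ n, 0 < r n) (hrz : ∀ n, r n ≤ z n) (hz : ∀ n, z n ≤ b ^ (2 * (n + 1)) * c)
    (h : ∀ n, b ^ (2 * (n + 1)) ≤ (n + 2) ^ e * r n) :
    Tendsto (fun n => Real.log (z n) / Real.log (r n)) atTop (𝓝 1) ∧
      Tendsto (fun n => (r n : ℝ) ^ ((1 : ℝ) / (n + 1))) atTop (𝓝 ((b : ℝ) ^ 2)) ∧
      Tendsto (fun n => (z n : ℝ) ^ ((1 : ℝ) / (n + 1))) atTop (𝓝 ((b : ℝ) ^ 2)) := by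
  obtain ⟨h1, h2⟩ := log_lim hb hc e hr hrz hz h
  have hb1 : (1 : ℝ) < b := by exact_mod_cast hb
  have hlog : 0 < Real.log b := Real.log_pos hb1
  have hexp : Real.exp (2 * Real.log b) = (b : ℝ) ^ 2 := by
    rw [two_mul, Real.exp_add, Real.exp_log (by positivity), sq]
  have gen : ∀ s : ℕ → ℕ, (∀ n, 0 < s n) →
      Tendsto (fun n => Real.log (s n) / (n + 1)) atTop (𝓝 (2 * Real.log b)) →
      Tendsto (fun n => (s n : ℝ) ^ ((1 : ℝ) / (n + 1))) atTop (𝓝 ((b : ℝ) ^ 2)) := by
    intro s hs hs2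
    have h3 := (Real.continuous_exp.tendsto (2 * Real.log b)).comp hs2
    rw [hexp] at h3
    refine h3.congr fun n => ?_
    have hs0 : (0 : ℝ) < s n := by exact_mod_cast hs n
    rw [Function.comp_apply, Real.rpow_def_of_pos hs0]
    congr 1
    ring
  refine ⟨?_, gen r hr h1, gen z (fun n => (hr n).trans_le (hrz n)) h2⟩
  have h3 := h2.div h1 (by positivity)
  rw [div_self (by positivity)] at h3
  refine h3.congr fun n => ?_
  have hn : (n : ℝ) + 1 ≠ 0 := by positivity
  change Real.log (z n) / (n + 1) / (Real.log (r n) / (n + 1)) = _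
  rw [div_div_div_cancel_right₀ hn]

end Pool.Agent.R934
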