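import Pool.Agent.R934.JacNC

/-!
# Rings in which each unit is unipotent up to sign and each nonzero right ideal has an idempotent
-/

set_option autoImplicit false
set_option linter.unusedSimpArgs false

universe u

namespace Pool.Agent.R934

variable {T : Type u} [Ring T]

/-- Matrix units of size two are impossible if each unit `v` has `v - 1` or `v + 1` nilpotent. -/
lemma no_matrix_units (h2 : ∀ v w : T, v * w = 1 → w * v = 1 → IsNilpotent (v - 1) ∨
      IsNilpotent (v + 1)) {a f p q : T} (haa : a * a = a) (hff : f * f = f) (haf : a * f = 0)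
    (hfa : f * a = 0) (hap : a * p = p) (hpa : p * a = 0) (hpf : p * f = p) (hfp : f * p = 0)
    (hfq : f * q = q) (hqf : q * f = 0) (hqa : q * a = q) (haq : a * q = 0) (hpp : p * p = 0)
    (hqq : q * q = 0) (hpq : p * q = a) (hqp : q * p = f) : a = 0 := by
  have key : ∀ {c h : T}, c * h = a + f → h * c = a + f → IsNilpotent c → a = 0 := by
    intro c h h1 h3 ⟨k, hk⟩
    have hcomm : Commute c h := h1.trans h3.symm
    have h4 : (a + f) ^ k = 0 := by
      rw [← h1, hcomm.mul_pow, hk, zero_mul]
    have h5 : (a + f) * (a + f) = a + f := by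
      simp only [mul_add, add_mul, haa, hff, haf, hfa, add_zero, zero_add]
    have h6 : a + f = 0 := by
      rcases Nat.eq_zero_or_pos k with h0 | h0
      · rw [h0, pow_zero] at h4
        exact (subsingleton_of_zero_eq_one h4.symm).elim _ _
      · have h7 : ∀ m : ℕ, (a + f) ^ (m + 1) = a + f := by
          intro m
          induction m with
          | zero => simp
          | succ m ih => rw [pow_succ, ih, h5]
        rw [← h7 (k - 1), Nat.sub_add_cancel h0, h4]
    calc a = a * (a + f) := by rw [mul_add, haa, haf, add_zero]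
      _ = 0 := by rw [h6, mul_zero]
  have hg1 : (1 - a + p + q) * (1 - 2 * a - f + p + q) = 1 := by
    simp only [two_mul, mul_add, add_mul, mul_sub, sub_mul, one_mul, mul_one, haa, hff, haf, hfa,
      hap, hpa, hpf, hfp, hfq, hqf, hqa, haq, hpp, hqq, hpq, hqp]
    abel
  have hg2 : (1 - 2 * a - f + p + q) * (1 - a + p + q) = 1 := by
    simp only [two_mul, mul_add, add_mul, mul_sub, sub_mul, one_mul, mul_one, haa, hff, haf, hfa,
      hap, hpa, hpf, hfp, hfq, hqf, hqa, haq, hpp, hqq, hpq, hqp]
    abel
  rcases h2 _ _ hg1 hg2 with h | h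
  · refine key (h := p + q + f) ?_ ?_ h <;>
    · simp only [mul_add, add_mul, mul_sub, sub_mul, one_mul, mul_one, haa, hff, haf, hfa,
        hap, hpa, hpf, hfp, hfq, hqf, hqa, haq, hpp, hqq, hpq, hqp]
      abel
  · refine key (h := 2 * a - p - q + f) ?_ ?_ h <;>
    · simp only [two_mul, mul_add, add_mul, mul_sub, sub_mul, one_mul, mul_one, haa, hff, haf, hfa,
        hap, hpa, hpf, hfp, hfq, hqf, hqa, haq, hpp, hqq, hpq, hqp]
      abel

lemma sq_zero (h1 : ∀ t : T, t ≠ 0 → ∃ x, (t * x) * (t * x) = t * x ∧ t * x ≠ 0)
    (h2 : ∀ v w : T, v * w = 1 → w * v = 1 → IsNilpotent (v - 1) ∨ IsNilpotent (v + 1))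
    {n : T} (hn : n * n = 0) : n = 0 := by
  by_contra hn0
  obtain ⟨r, he, he0⟩ := h1 n hn0
  set e := n * r with hedef
  have hne : n * e = 0 := by rw [hedef, ← mul_assoc, hn, zero_mul]
  have hnr : n * r = e := rfl
  -- rewriting rules with a tail
  have he' : ∀ z : T, e * (e * z) = e * z := fun z => by rw [← mul_assoc, he]
  have hne' : ∀ z : T, n * (e * z) = 0 := fun z => by rw [← mul_assoc, hne, zero_mul]
  have hnr' : ∀ z : T, n * (r * z) = e * z := fun z => by rw [← mul_assoc, hnr]
  have ha0 : e - e * (r * (e * n)) = 0 := by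
    apply no_matrix_units h2 (f := r * (e * n)) (p := e * n)
      (q := r * (e - e * (r * (e * n)))) <;>
    simp only [mul_sub, sub_mul, mul_assoc, he, hne, hnr, he', hne', hnr', mul_zero,
      sub_zero, sub_self]
  have hp0 : e * n = 0 := by
    have h3 : (e - e * (r * (e * n))) * (e * n) = e * n := by
      simp only [sub_mul, mul_assoc, he', hne', mul_zero, sub_zero]
    rw [← h3, ha0, zero_mul]
  apply he0
  calc e = e * (n * r) := by rw [hnr, he]
    _ = 0 := by rw [← mul_assoc, hp0, zero_mul]

lemma idem_central (hred : ∀ n : T, n * n = 0 → n = 0) {e : T} (he : e * e = e) (t : T) :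
    e * t = t * e := by
  have he' : ∀ z : T, e * (e * z) = e * z := fun z => by rw [← mul_assoc, he]
  have h1 : e * t - e * t * e = 0 := by
    apply hred
    simp only [mul_sub, sub_mul, mul_assoc, he, he', sub_self]
  have h2 : t * e - e * t * e = 0 := by
    apply hred
    simp only [mul_sub, sub_mul, mul_assoc, he, he', sub_self]
  rw [sub_eq_zero.1 h1, sub_eq_zero.1 h2]

lemma isNilpotent_eq_zero (hred : ∀ n : T, n * n = 0 → n = 0) {x : T} (hx : IsNilpotent x) :
    x = 0 := by
  have : IsReduced T := (isReduced_iff_pow_one_lt 2 (by norm_num)).2 (fun x hx => hred x (by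
    rw [← sq]; exact hx))
  exact IsReduced.eq_zero x hx

lemma local_sign (hred : ∀ n : T, n * n = 0 → n = 0)
    (h2 : ∀ v w : T, v * w = 1 → w * v = 1 → IsNilpotent (v - 1) ∨ IsNilpotent (v + 1))
    {t x e : T} (hex : e = t * x) (he : e * e = e) : t * e = e ∨ t * e = -e := by
  have hc : ∀ z, e * z = z * e := idem_central hred he
  have hk : (x * t * e) * (x * t * e) = x * t * e := by
    calc (x * t * e) * (x * t * e) = x * t * (e * (x * t * e)) := by simp only [mul_assoc]
      _ = x * t * ((x * t * e) * e) := by rw [hc]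
      _ = x * (t * x) * (t * (e * e)) := by simp only [mul_assoc]
      _ = x * (e * t * e) := by rw [← hex, he]; simp only [mul_assoc]
      _ = x * t * e := by rw [hc t]; simp only [mul_assoc, he]
  set k := x * t * e with hkdef
  have hke : k * e = k := by rw [hkdef, mul_assoc, he]
  have hek : e * k = k := by rw [hc, hke]
  have htk : t * k = t * e := by
    calc t * k = (t * x) * (t * e) := by rw [hkdef]; simp only [mul_assoc]
      _ = e * t * e := by rw [← hex, mul_assoc]
      _ = t * e := by rw [hc t, mul_assoc, he]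
  have hidem : (e - k) * (e - k) = e - k := by
    simp only [mul_sub, sub_mul, he, hke, hek, hk, sub_self, sub_zero]
  have hc2 : ∀ z, (e - k) * z = z * (e - k) := idem_central hred hidem
  have hzero : e - k = 0 := by
    calc e - k = e * (e - k) := by rw [mul_sub, he, hek]
      _ = t * (x * (e - k)) := by rw [hex, mul_assoc]
      _ = t * ((e - k) * x) := by rw [hc2]
      _ = (t * e - t * k) * x := by rw [← mul_assoc, mul_sub]
      _ = 0 := by rw [htk, sub_self, zero_mul]
  have hkk : x * t * e = e := (sub_eq_zero.1 hzero).symm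
  have hvw : (t * e + (1 - e)) * (x * e + (1 - e)) = 1 := by
    have a1 : t * e * (x * e) = e := by
      calc t * e * (x * e) = t * (e * (x * e)) := by rw [mul_assoc]
        _ = t * (x * e) := by rw [hc (x * e), mul_assoc, he]
        _ = e := by rw [← mul_assoc, ← hex, he]
    have a2 : e * (x * e) = x * e := by rw [hc, mul_assoc, he]
    simp only [mul_add, add_mul, mul_sub, sub_mul, mul_one, one_mul, a1, a2]
    simp only [mul_assoc, he]
    abel
  have hwv : (x * e + (1 - e)) * (t * e + (1 - e)) = 1 := by
    have a1 : x * e * (t * e) = e := by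
      calc x * e * (t * e) = x * (e * (t * e)) := by rw [mul_assoc]
        _ = x * (t * e) := by rw [hc (t * e), mul_assoc, he]
        _ = e := by rw [← mul_assoc, hkk]
    have a2 : e * (t * e) = t * e := by rw [hc, mul_assoc, he]
    simp only [mul_add, add_mul, mul_sub, sub_mul, mul_one, one_mul, a1, a2]
    simp only [mul_assoc, he]
    abel
  rcases h2 _ _ hvw hwv with h | h
  · left
    have h3 := isNilpotent_eq_zero hred h
    have h4 : t * e - e = 0 := by rw [← h3]; abel
    exact sub_eq_zero.1 h4
  · right
    have h3 := isNilpotent_eq_zero hred h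
    have h4 : (t * e + (1 - e) + 1) * e = t * e + e := by
      simp only [add_mul, sub_mul, one_mul, mul_assoc, he]
      abel
    rw [h3, zero_mul] at h4
    exact eq_neg_of_add_eq_zero_left h4.symm

/-- The main step. -/
lemma sq_eq_or (h1 : ∀ t : T, t ≠ 0 → ∃ x, (t * x) * (t * x) = t * x ∧ t * x ≠ 0)
    (h2 : ∀ v w : T, v * w = 1 → w * v = 1 → IsNilpotent (v - 1) ∨ IsNilpotent (v + 1)) (t : T) :
    t * t = t ∨ t * t = -t := by
  have hred : ∀ n : T, n * n = 0 → n = 0 := fun n hn => sq_zero h1 h2 hn
  have hcube : t * t * t = t := by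
    by_contra hne
    have hs : t * t * t - t ≠ 0 := sub_ne_zero.2 hne
    obtain ⟨x, he, he0⟩ := h1 _ hs
    set e := (t * t * t - t) * x with hedef
    have hc : ∀ z, e * z = z * e := idem_central hred he
    have hex : e = t * ((t * t - 1) * x) := by
      rw [hedef, ← mul_assoc]
      congr 1
      simp only [mul_sub, mul_one, mul_assoc]
    have hzero : (t * t * t - t) * e = 0 := by
      rcases local_sign hred h2 hex he with h | h
      · have h3 : t * (t * (t * e)) = e := by rw [h, h, h]
        simp only [sub_mul, mul_assoc]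
        rw [h3, h, sub_self]
      · have h3 : t * (t * (t * e)) = -e := by
          rw [h, mul_neg, h, neg_neg, h]
        simp only [sub_mul, mul_assoc]
        rw [h3, h, sub_self]
    apply he0
    calc e = e * ((t * t * t - t) * x) := by rw [← hedef, he]
      _ = ((t * t * t - t) * e) * x := by rw [← mul_assoc, hc (t * t * t - t)]
      _ = 0 := by rw [hzero, zero_mul]
  have hcube' : t * (t * t) = t := by rw [← mul_assoc, hcube]
  set g := t * t with hgdef
  have hgg : g * g = g := by
    calc g * g = t * t * t * t := by rw [hgdef]; simp only [mul_assoc]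
      _ = g := by rw [hcube]
  have htg : t * g = t := hcube'
  have hgt : g * t = t := hcube
  have huu : (t + (1 - g)) * (t + (1 - g)) = 1 := by
    simp only [mul_add, add_mul, mul_sub, sub_mul, mul_one, one_mul, htg, hgt, hgg]
    rw [← hgdef]
    abel
  rcases h2 _ _ huu huu with h | h
  · left
    have h3 := isNilpotent_eq_zero hred h
    have h4 : t - g = 0 := by rw [← h3]; abel
    exact (sub_eq_zero.1 h4).symm
  · right
    have h3 := isNilpotent_eq_zero hred h
    have h4 : (t + (1 - g) + 1) * g = t + g := by
      simp only [add_mul, sub_mul, one_mul, htg, hgg]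
      abel
    rw [h3, zero_mul] at h4
    exact eq_neg_of_add_eq_zero_right h4.symm

end Pool.Agent.R934
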