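import Mathlib

/-!
# The polynomial `a + c X` with `a`, `c` comaximal is prime over a domain
-/

set_option autoImplicit false

open Polynomial

namespace Pool.Agent.R934

section

variable {D : Type*} [CommRing D] [IsDomain D]

lemma linear_dvd_of_root {K : Type*} [Field K] (φ : D →+* K) (hφ : Function.Injective φ) (a c : D)
    (hc : c ≠ 0) (hac : IsCoprime a c) (n : ℕ) : ∀ f : D[X], f.natDegree ≤ n →
      f.eval₂ φ (-(φ a) / φ c) = 0 → (C a + C c * X) ∣ f := by
  have hφc : φ c ≠ 0 := fun h => hc (hφ (by rw [h, map_zero]))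
  induction n with
  | zero =>
    intro f hf h0
    replace hf := Polynomial.eq_C_of_natDegree_le_zero hf
    rw [hf, eval₂_C] at h0
    have : f.coeff 0 = 0 := hφ (by rw [h0, map_zero])
    rw [hf, this, C_0]
    exact dvd_zero _
  | succ n ih =>
    intro f hf h0
    have h1 : ∑ i ∈ Finset.range (n + 2), f.coeff i * (-a) ^ i * c ^ (n + 1 - i) = 0 := by
      apply hφ
      rw [map_zero, map_sum]
      have h2 : (φ c) ^ (n + 1) * f.eval₂ φ (-(φ a) / φ c) = 0 := by rw [h0, mul_zero]
      rw [eval₂_eq_sum_range' φ (Nat.lt_succ_of_le hf), Finset.mul_sum] at h2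
      rw [← h2]
      apply Finset.sum_congr rfl
      intro i hi
      have hi' : i ≤ n + 1 := by
        rw [Finset.mem_range] at hi
        omega
      rw [map_mul, map_mul, map_pow, map_pow, map_neg, div_pow]
      have h3 : (φ c) ^ (n + 1) = (φ c) ^ i * (φ c) ^ (n + 1 - i) := by
        rw [← pow_add]
        congr 1
        omega
      rw [h3]
      field_simp
    rw [Finset.sum_range_succ, Nat.sub_self, pow_zero, mul_one] at h1
    have h4 : c ∣ f.coeff (n + 1) * (-a) ^ (n + 1) := by
      have h5 : c ∣ ∑ i ∈ Finset.range (n + 1), f.coeff i * (-a) ^ i * c ^ (n + 1 - i) := by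
        apply Finset.dvd_sum
        intro i hi
        rw [Finset.mem_range] at hi
        exact Dvd.dvd.mul_left (dvd_pow_self c (by omega)) _
      exact (dvd_add_right h5).1 (by rw [h1]; exact dvd_zero _)
    have h6 : c ∣ f.coeff (n + 1) := by
      have h7 : IsCoprime c ((-a) ^ (n + 1)) := (hac.symm.neg_right).pow_right
      exact h7.dvd_of_dvd_mul_right h4
    obtain ⟨g, hg⟩ := h6
    have h8 : (C a + C c * X) ∣ f - C g * X ^ n * (C a + C c * X) := by
      apply ih
      · rw [Polynomial.natDegree_le_iff_coeff_eq_zero]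
        intro m hm
        have h9 : C g * X ^ n * (C a + C c * X) = C (g * a) * X ^ n + C (g * c) * X ^ (n + 1) := by
          simp only [C_mul]
          ring
        rw [h9, coeff_sub, coeff_add, coeff_C_mul_X_pow, coeff_C_mul_X_pow, if_neg (by omega)]
        by_cases h10 : m = n + 1
        · rw [if_pos h10, h10, hg]
          ring
        · rw [if_neg h10, Polynomial.coeff_eq_zero_of_natDegree_lt (by omega)]
          ring
      · rw [eval₂_sub, h0, eval₂_mul]
        have : (C a + C c * X).eval₂ φ (-(φ a) / φ c) = 0 := by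
          rw [eval₂_add, eval₂_C, eval₂_mul, eval₂_C, eval₂_X]
          field_simp
          ring
        rw [this]
        ring
    have h11 := dvd_add h8 (Dvd.intro_left (C g * X ^ n) rfl : (C a + C c * X) ∣ C g * X ^ n * (C a + C c * X))
    rwa [sub_add_cancel] at h11

lemma linear_prime (a c : D) (hc : c ≠ 0) (hac : IsCoprime a c) : Prime (C a + C c * X : D[X]) := by
  have hdeg : (C a + C c * X : D[X]).natDegree = 1 := by
    rw [add_comm]
    exact natDegree_linear hc
  refine ⟨fun h => ?_, fun h => ?_, fun f g h => ?_⟩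
  · rw [h] at hdeg
    simp at hdeg
  · have := natDegree_eq_zero_of_isUnit h
    omega
  · set φ := algebraMap D (FractionRing D)
    have hφ : Function.Injective φ := IsFractionRing.injective D (FractionRing D)
    have h1 : (f * g).eval₂ φ (-(φ a) / φ c) = 0 := by
      obtain ⟨q, hq⟩ := h
      have hφc : φ c ≠ 0 := fun h => hc (hφ (by rw [h, map_zero]))
      have : (C a + C c * X).eval₂ φ (-(φ a) / φ c) = 0 := by
        rw [eval₂_add, eval₂_C, eval₂_mul, eval₂_C, eval₂_X]
        field_simp
        ring
      rw [hq, eval₂_mul, this, zero_mul]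
    rw [eval₂_mul, mul_eq_zero] at h1
    rcases h1 with h1 | h1
    · exact Or.inl (linear_dvd_of_root φ hφ a c hc hac _ f le_rfl h1)
    · exact Or.inr (linear_dvd_of_root φ hφ a c hc hac _ g le_rfl h1)

lemma factor_of_mul_eq {B : Type*} [CommRing B] [IsDomain B] {p q : B} (hp : Prime p) (hq : Prime q)
    (n m : ℕ) : ∀ F H : B, F * H = p ^ n * q ^ m → ∃ (u : Bˣ) (i j : ℕ), F = u * p ^ i * q ^ j := by
  induction n with
  | zero =>
    induction m with
    | zero =>
      intro F H h
      rw [pow_zero, pow_zero, one_mul] at h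
      exact ⟨Units.mkOfMulEqOne F H h, 0, 0, by simp⟩
    | succ m ih =>
      intro F H h
      rw [pow_zero, one_mul] at h
      have h1 : q ∣ F * H := by
        rw [h]
        exact dvd_pow_self q (by omega)
      rcases hq.dvd_or_dvd h1 with ⟨F', hF⟩ | ⟨H', hH⟩
      · have h2 : F' * H = p ^ 0 * q ^ m := by
          apply mul_left_cancel₀ hq.ne_zero
          rw [← mul_assoc, ← hF, h, pow_zero, one_mul, pow_succ']
        obtain ⟨u, i, j, hu⟩ := ih F' H h2
        exact ⟨u, i, j + 1, by rw [hF, hu]; ring⟩
      · have h2 : F * H' = p ^ 0 * q ^ m := by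
          apply mul_left_cancel₀ hq.ne_zero
          rw [mul_left_comm, ← hH, h, pow_zero, one_mul, pow_succ']
        exact ih F H' h2
  | succ n ih =>
    intro F H h
    have h1 : p ∣ F * H := by
      rw [h]
      exact (dvd_pow_self p (by omega)).mul_right _
    rcases hp.dvd_or_dvd h1 with ⟨F', hF⟩ | ⟨H', hH⟩
    · have h2 : F' * H = p ^ n * q ^ m := by
        apply mul_left_cancel₀ hp.ne_zero
        rw [← mul_assoc, ← hF, h, pow_succ']
        ring
      obtain ⟨u, i, j, hu⟩ := ih F' H h2
      exact ⟨u, i + 1, j, by rw [hF, hu]; ring⟩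
    · have h2 : F * H' = p ^ n * q ^ m := by
        apply mul_left_cancel₀ hp.ne_zero
        rw [mul_left_comm, ← hH, h, pow_succ']
        ring
      exact ih F H' h2

end

end Pool.Agent.R934
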