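import Mathlib
import Pool.Agent.R934.UsrPrime

/-!
# One step of the construction: solving `2 + r c` in a subring of `ℝ × ZMod 8`
-/

set_option autoImplicit false

open Polynomial

namespace Pool.Agent.R934

/-- `s = ±1`. -/
def PM (s : ZMod 8) : Prop := s = 1 ∨ s = -1

lemma PM.mul {s t : ZMod 8} (hs : PM s) (ht : PM t) : PM (s * t) := by
  rcases hs with rfl | rfl <;> rcases ht with rfl | rfl <;> simp [PM]

lemma PM.pow {s : ZMod 8} (hs : PM s) (n : ℕ) : PM (s ^ n) := by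
  induction n with
  | zero => left; simp
  | succ n ih => rw [pow_succ]; exact ih.mul hs

lemma PM.of_mul {s t : ZMod 8} (hst : PM (s * t)) (ht : PM t) : PM s := by
  have h : PM (s * t * t) := hst.mul ht
  have h2 : t * t = 1 := by rcases ht with rfl | rfl <;> simp
  rwa [mul_assoc, h2, mul_one] at h

lemma exists_tau (γ x y : ZMod 8) (h : x * 2 + y * γ = 1) : ∃ τ : ZMod 8, PM τ ∧ PM (2 + τ * γ) := by
  have h8 : ∀ γ x y : ZMod 8, x * 2 + y * γ = 1 → ∃ τ : ZMod 8, (τ = 1 ∨ τ = -1) ∧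
      (2 + τ * γ = 1 ∨ 2 + τ * γ = -1) := by decide
  exact h8 γ x y h

/-- The invariant of the construction. -/
structure Good (G : Subring (ℝ × ZMod 8)) : Prop where
  cnt : (G : Set (ℝ × ZMod 8)).Countable
  q1 : ∀ g ∈ G, g.1 = 0 → g = 0
  q2 : ∀ g ∈ G, ∀ h ∈ G, g * h = 1 → PM g.2

/-- `2 + r c` is invertible for some unit `r` of `G`. -/
def Sol (G : Subring (ℝ × ZMod 8)) (c : ℝ × ZMod 8) : Prop :=
  ∃ T ∈ G, ∃ T' ∈ G, ∃ W ∈ G, T * T' = 1 ∧ (2 + T * c) * W = 1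

lemma Sol.mono {G G' : Subring (ℝ × ZMod 8)} (h : G ≤ G') {c : ℝ × ZMod 8} (hs : Sol G c) :
    Sol G' c := by
  obtain ⟨T, hT, T', hT', W, hW, h1, h2⟩ := hs
  exact ⟨T, h hT, T', h hT', W, h hW, h1, h2⟩

lemma good_step (G : Subring (ℝ × ZMod 8)) (hG : Good G) (c : ℝ × ZMod 8) (hc : c ∈ G)
    (hxy : ∃ x ∈ G, ∃ y ∈ G, x * 2 + y * c = 1) :
    ∃ G' : Subring (ℝ × ZMod 8), G ≤ G' ∧ Good G' ∧ Sol G' c := by
  obtain ⟨x, hx, y, hy, hxy⟩ := hxy
  obtain ⟨τ, hτ, hπ⟩ := exists_tau c.2 x.2 y.2 (by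
    have := congrArg Prod.snd hxy
    simpa using this)
  -- `G` is a domain
  have hinj : Function.Injective ((RingHom.fst ℝ (ZMod 8)).comp G.subtype) := by
    rw [injective_iff_map_eq_zero]
    intro g hg
    exact Subtype.ext (hG.q1 g.1 g.2 hg)
  set φ : G →+* ℝ := (RingHom.fst ℝ (ZMod 8)).comp G.subtype with hφdef
  haveI : IsDomain G := hinj.isDomain φ
  have hc0 : c.1 ≠ 0 := by
    intro h
    have h1 := hG.q1 c hc h
    rw [h1, mul_zero, add_zero] at hxy
    have h2 : x.2 * 2 = 1 := by simpa using congrArg Prod.snd hxy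
    revert h2
    generalize x.2 = z
    revert z
    decide
  set c' : G := ⟨c, hc⟩ with hc'
  have hc'0 : c' ≠ 0 := by
    intro h
    apply hc0
    have := congrArg (fun g : G => g.1.1) h
    simpa using this
  have hco : IsCoprime (2 : G) c' := by
    refine ⟨⟨x, hx⟩, ⟨y, hy⟩, ?_⟩
    apply Subtype.ext
    exact hxy
  -- transcendental element
  have ht : ∃ t : ℝ, ∀ p : G[X], p.eval₂ φ t = 0 → p = 0 := by
    letI := φ.toAlgebra
    haveI : Countable G := hG.cnt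
    haveI : FaithfulSMul G ℝ := (faithfulSMul_iff_algebraMap_injective G ℝ).2 hinj
    haveI : Module.IsTorsionFree G ℝ := by
      infer_instance
    have h1 := Algebraic.countable G ℝ
    have h2 : ∃ t : ℝ, t ∉ {x : ℝ | IsAlgebraic G x} := by
      by_contra hcon
      push Not at hcon
      have h3 : {x : ℝ | IsAlgebraic G x} = Set.univ := Set.eq_univ_of_forall hcon
      rw [h3, Set.countable_univ_iff] at h1
      exact not_countable h1
    obtain ⟨t, ht⟩ := h2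
    refine ⟨t, fun p hp => ?_⟩
    by_contra hp0
    exact ht ⟨p, hp0, hp⟩
  obtain ⟨t, ht⟩ := ht
  set T : ℝ × ZMod 8 := (t, τ) with hT
  set ev : G[X] →+* ℝ × ZMod 8 := eval₂RingHom G.subtype T with hev
  have hev1 : ∀ p, (ev p).1 = p.eval₂ φ t := by
    intro p
    have : (RingHom.fst ℝ (ZMod 8)) (ev p) = p.eval₂ φ t := by
      rw [hev, coe_eval₂RingHom, hom_eval₂]
      rfl
    exact this
  have hev0 : ∀ p, (ev p).1 = 0 → p = 0 := fun p hp => ht p (by rw [← hev1, hp])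
  have hevC : ∀ g : G, ev (C g) = g.1 := fun g => by
    rw [hev, coe_eval₂RingHom, eval₂_C]
    rfl
  have hevX : ev X = T := by
    rw [hev, coe_eval₂RingHom, eval₂_X]
  set P : G[X] := C 2 + C c' * X with hP
  have hevP : ev P = 2 + T * c := by
    rw [hP, map_add, map_mul, hevC, hevC, hevX, mul_comm c'.1 T]
    rfl
  have hPprime : Prime P := linear_prime 2 c' hc'0 hco
  have hP0 : P ≠ 0 := hPprime.ne_zero
  set Z : ℝ × ZMod 8 := ev (X * P) with hZ
  have hZ1 : Z.1 ≠ 0 := fun h => mul_ne_zero X_ne_zero hP0 (hev0 _ h)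
  have hZ' : Z = T * (2 + T * c) := by rw [hZ, map_mul, hevX, hevP]
  have hZ2 : PM Z.2 := by
    have h1 : Z.2 = τ * (2 + τ * c.2) := by
      rw [hZ']
      rfl
    rw [h1]
    exact hτ.mul hπ
  have hZu : ∃ V : ℝ × ZMod 8, Z * V = 1 := by
    refine ⟨(Z.1⁻¹, Z.2), ?_⟩
    apply Prod.ext
    · exact mul_inv_cancel₀ hZ1
    · show Z.2 * Z.2 = 1
      rcases hZ2 with h | h <;> rw [h] <;> decide
  obtain ⟨V, hV⟩ := hZu
  have hZn : ∀ (n : ℕ) (w : ℝ × ZMod 8), w * Z ^ n * V ^ n = w := by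
    intro n w
    rw [mul_assoc, ← mul_pow, hV, one_pow, mul_one]
  let G' : Subring (ℝ × ZMod 8) :=
    { carrier := {w | ∃ (n : ℕ) (p : G[X]), w * Z ^ n = ev p}
      mul_mem' := by
        rintro a b ⟨n, p, hn⟩ ⟨m, q, hm⟩
        refine ⟨n + m, p * q, ?_⟩
        rw [map_mul, ← hn, ← hm]
        ring
      one_mem' := ⟨0, 1, by simp⟩
      add_mem' := by
        rintro a b ⟨n, p, hn⟩ ⟨m, q, hm⟩
        refine ⟨n + m, p * (X * P) ^ m + q * (X * P) ^ n, ?_⟩
        rw [map_add, map_mul, map_mul, map_pow, map_pow, ← hn, ← hm, ← hZ]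
        ring
      zero_mem' := ⟨0, 0, by simp⟩
      neg_mem' := by
        rintro a ⟨n, p, hn⟩
        refine ⟨n, -p, ?_⟩
        rw [map_neg, ← hn]
        ring }
  have hmem : ∀ w, w ∈ G' ↔ ∃ (n : ℕ) (p : G[X]), w * Z ^ n = ev p := fun w => Iff.rfl
  refine ⟨G', ?_, ⟨?_, ?_, ?_⟩, ?_⟩
  · intro g hg
    exact (hmem _).2 ⟨0, C ⟨g, hg⟩, by rw [hevC, pow_zero, mul_one]⟩
  · haveI : Countable G := hG.cnt
    haveI : Countable G[X] := by
      rw [← Cardinal.mk_le_aleph0_iff]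
      refine Polynomial.cardinalMk_le_max.trans (max_le ?_ le_rfl)
      rw [Cardinal.mk_le_aleph0_iff]
      infer_instance
    have h1 : (G' : Set (ℝ × ZMod 8)) ⊆ Set.range (fun np : ℕ × G[X] => ev np.2 * V ^ np.1) := by
      rintro w ⟨n, p, hn⟩
      exact ⟨(n, p), by
        show ev p * V ^ n = w
        rw [← hn, hZn]⟩
    exact (Set.countable_range _).mono h1
  · rintro w ⟨n, p, hn⟩ hw
    have h1 : (ev p).1 = 0 := by
      rw [← hn, Prod.fst_mul, hw, zero_mul]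
    have h2 := hev0 p h1
    rw [← hZn n w, hn, h2, map_zero, zero_mul]
  · rintro w ⟨n, p, hn⟩ v ⟨m, q, hm⟩ hwv
    have h1 : p * q = X ^ (n + m) * P ^ (n + m) := by
      rw [← sub_eq_zero]
      apply hev0
      have : ev (p * q - X ^ (n + m) * P ^ (n + m)) = 0 := by
        rw [map_sub, map_mul, ← hn, ← hm, ← mul_pow, map_pow, ← hZ]
        have : w * Z ^ n * (v * Z ^ m) = w * v * Z ^ (n + m) := by ring
        rw [this, hwv]
        ring
      rw [this]
      rfl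
    obtain ⟨u, i, j, hu⟩ := factor_of_mul_eq prime_X hPprime _ _ p q h1
    obtain ⟨r, hr, hru⟩ := Polynomial.isUnit_iff.1 u.isUnit
    have h2 : (ev p).2 = r.1.2 * τ ^ i * (2 + τ * c.2) ^ j := by
      rw [hu, map_mul, map_mul, map_pow, map_pow, ← hru, hevC, hevX, hevP]
      rfl
    have h3 : PM r.1.2 := by
      obtain ⟨s, hs⟩ := hr.exists_right_inv
      exact hG.q2 r.1 r.2 s.1 s.2 (by simpa using congrArg Subtype.val hs)
    have h4 : PM (w.2 * Z.2 ^ n) := by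
      have : w.2 * Z.2 ^ n = (ev p).2 := by
        rw [← hn]
        rfl
      rw [this, h2]
      exact (h3.mul (hτ.pow i)).mul (hπ.pow j)
    exact h4.of_mul (hZ2.pow n)
  · refine ⟨T, (hmem _).2 ⟨0, X, by rw [hevX]; simp⟩, (2 + T * c) * V, (hmem _).2 ⟨1, P, ?_⟩,
      T * V, (hmem _).2 ⟨1, X, ?_⟩, ?_, ?_⟩
    · rw [hevP, pow_one, mul_assoc, mul_comm V Z, hV, mul_one]
    · rw [hevX, pow_one, mul_assoc, mul_comm V Z, hV, mul_one]
    · rw [← mul_assoc, ← hZ', hV]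
    · rw [← hV, hZ']
      ring

end Pool.Agent.R934
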