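import Mathlib
import Pool.Agent.R934.UsrStep

/-!
# Iterating the step: a subring of `ℝ × ZMod 8` in which `2` has unit stable range one
-/

set_option autoImplicit false

namespace Pool.Agent.R934

lemma good_iSup (E : ℕ → Subring (ℝ × ZMod 8)) (hE : Monotone E) (h : ∀ n, Good (E n)) :
    Good (⨆ n, E n) := by
  have hd : Directed (· ≤ ·) E := hE.directed_le
  refine ⟨?_, ?_, ?_⟩
  · rw [Subring.coe_iSup_of_directed hd]
    exact Set.countable_iUnion fun n => (h n).cnt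
  · intro g hg h0
    obtain ⟨n, hn⟩ := (Subring.mem_iSup_of_directed hd).1 hg
    exact (h n).q1 g hn h0
  · intro g hg k hk hgk
    obtain ⟨n, hn⟩ := (Subring.mem_iSup_of_directed hd).1 hg
    obtain ⟨m, hm⟩ := (Subring.mem_iSup_of_directed hd).1 hk
    exact (h (max n m)).q2 g (hE (le_max_left n m) hn) k (hE (le_max_right n m) hm) hgk

/-- The hypothesis under which `c` has to be treated. -/
def Hyp (G : Subring (ℝ × ZMod 8)) (c : ℝ × ZMod 8) : Prop :=
  ∃ x ∈ G, ∃ y ∈ G, x * 2 + y * c = 1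

lemma full (G : {G : Subring (ℝ × ZMod 8) // Good G}) :
    ∃ G' : {G : Subring (ℝ × ZMod 8) // Good G}, G.1 ≤ G'.1 ∧
      ∀ c ∈ G.1, Hyp G.1 c → Sol G'.1 c := by
  classical
  obtain ⟨f, hf⟩ := G.2.cnt.exists_eq_range ⟨0, G.1.zero_mem⟩
  have hstep : ∀ (E : {G : Subring (ℝ × ZMod 8) // Good G}) (c : ℝ × ZMod 8),
      ∃ E' : {G : Subring (ℝ × ZMod 8) // Good G}, E.1 ≤ E'.1 ∧
        (c ∈ E.1 → Hyp E.1 c → Sol E'.1 c) := by
    intro E c
    by_cases h : c ∈ E.1 ∧ Hyp E.1 c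
    · obtain ⟨E', h1, h2, h3⟩ := good_step E.1 E.2 c h.1 h.2
      exact ⟨⟨E', h2⟩, h1, fun _ _ => h3⟩
    · exact ⟨E, le_rfl, fun h1 h2 => (h ⟨h1, h2⟩).elim⟩
  choose S hS1 hS2 using hstep
  let E : ℕ → {G : Subring (ℝ × ZMod 8) // Good G} := fun n => Nat.rec G (fun n E => S E (f n)) n
  have hE0 : E 0 = G := rfl
  have hEs : ∀ n, E (n + 1) = S (E n) (f n) := fun n => rfl
  have hmono : Monotone (fun n => (E n).1) := by
    apply monotone_nat_of_le_succ
    intro n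
    show (E n).1 ≤ (E (n + 1)).1
    rw [hEs]
    exact hS1 _ _
  refine ⟨⟨⨆ n, (E n).1, good_iSup _ hmono fun n => (E n).2⟩, ?_, ?_⟩
  · exact le_iSup (fun n => (E n).1) 0
  · intro c hc hyp
    have hc' : c ∈ Set.range f := by
      rw [← hf]
      exact hc
    obtain ⟨n, rfl⟩ := hc'
    have h0 : G.1 ≤ (E n).1 := hmono (Nat.zero_le n)
    have h1 : Sol (E (n + 1)).1 (f n) := by
      rw [hEs]
      apply hS2 _ _ (h0 hc)
      obtain ⟨x, hx, y, hy, h⟩ := hyp
      exact ⟨x, h0 hx, y, h0 hy, h⟩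
    exact h1.mono (le_iSup (fun n => (E n).1) (n + 1))

lemma exists_ring : ∃ R : Subring (ℝ × ZMod 8), Good R ∧ ∀ c ∈ R, Hyp R c → Sol R c := by
  have hbase : Good (Int.castRingHom (ℝ × ZMod 8)).range := by
    refine ⟨?_, ?_, ?_⟩
    · rw [RingHom.coe_range]
      exact Set.countable_range _
    · rintro g ⟨n, rfl⟩ h
      have h1 : ((n : ℤ) : ℝ) = 0 := h
      rw [Int.cast_eq_zero] at h1
      rw [h1, map_zero]
    · rintro g ⟨n, rfl⟩ h ⟨m, rfl⟩ hnm
      have h1 : ((n : ℤ) : ℝ) * ((m : ℤ) : ℝ) = 1 := congrArg Prod.fst hnm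
      have h2 : n * m = 1 := by exact_mod_cast h1
      rcases Int.isUnit_iff.1 (IsUnit.of_mul_eq_one m h2) with rfl | rfl
      · left
        simp
      · right
        simp
  choose F hF1 hF2 using full
  let D : ℕ → {G : Subring (ℝ × ZMod 8) // Good G} := fun n => Nat.rec ⟨_, hbase⟩ (fun _ E => F E) n
  have hDs : ∀ n, D (n + 1) = F (D n) := fun n => rfl
  have hmono : Monotone (fun n => (D n).1) := by
    apply monotone_nat_of_le_succ
    intro n
    show (D n).1 ≤ (D (n + 1)).1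
    rw [hDs]
    exact hF1 _
  have hd : Directed (· ≤ ·) (fun n => (D n).1) := hmono.directed_le
  refine ⟨⨆ n, (D n).1, good_iSup _ hmono fun n => (D n).2, ?_⟩
  rintro c hc ⟨x, hx, y, hy, h⟩
  obtain ⟨n, hn⟩ := (Subring.mem_iSup_of_directed hd).1 hc
  obtain ⟨m, hm⟩ := (Subring.mem_iSup_of_directed hd).1 hx
  obtain ⟨k, hk⟩ := (Subring.mem_iSup_of_directed hd).1 hy
  have hN1 : n ≤ n + m + k := by omega
  have hN2 : m ≤ n + m + k := by omega
  have hN3 : k ≤ n + m + k := by omega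
  have h1 : Sol (D (n + m + k + 1)).1 c := by
    rw [hDs]
    exact hF2 _ c (hmono hN1 hn) ⟨x, hmono hN2 hm, y, hmono hN3 hk, h⟩
  exact h1.mono (le_iSup (fun n => (D n).1) (n + m + k + 1))

end Pool.Agent.R934
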